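import Pool.Agent.N513.CE.Stm2

/-!
# Project CE, part HRJ: the Hall group is residually finite
-/

set_option autoImplicit false

namespace Pool.Agent.N901.CE

open Pool.Agent.N513.CE

/-- the coefficients of the image, if the homomorphism is injective on the support -/
theorem coeff_rmap {C C' D D' : Type} [CommRing C] [CommRing C'] [Group D] [Group D']
    (γ : C →+* C') (π : D →* D') (x : MonoidAlgebra C D) (S : Set D)
    (hx : (x.coeff.support : Set D) ⊆ S) (hS : Set.InjOn π S) {a : D} (ha : a ∈ S) :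
    (rmap γ π x).coeff (π a) = γ (x.coeff a) := by
  have e1 : (rmap γ π x).coeff = Finsupp.mapDomain π (MonoidAlgebra.mapRingHom D γ x).coeff := rfl
  have hs : (((MonoidAlgebra.mapRingHom D γ x).coeff).support : Set D) ⊆ S := by
    intro m hm
    apply hx
    rw [Finset.mem_coe, Finsupp.mem_support_iff] at hm ⊢
    intro h
    apply hm
    rw [MonoidAlgebra.coeff_mapRingHom, h, map_zero]
  rw [e1, Finsupp.mapDomain_apply' S _ hs hS ha, MonoidAlgebra.coeff_mapRingHom]

theorem int_eq {N : ℕ} {a b : ℤ} (ha : a.natAbs ≤ N) (hb : b.natAbs ≤ N)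
    (h : Int.castRingHom (ZMod (2 * N + 1)) a = Int.castRingHom (ZMod (2 * N + 1)) b) : a = b := by
  have h1 : (a : ZMod (2 * N + 1)) = (b : ZMod (2 * N + 1)) := h
  rw [ZMod.intCast_eq_intCast_iff_dvd_sub] at h1
  have h2 : b - a = 0 := by
    apply Int.eq_zero_of_abs_lt_dvd h1
    rw [abs_lt]
    push_cast
    constructor <;> omega
  omega

theorem rmap_inj {D D' : Type} [Group D] [Group D'] {N : ℕ} (π : D →* D') (S : Set D)
    (hS : Set.InjOn π S) (x y : MonoidAlgebra ℤ D) (hx : (x.coeff.support : Set D) ⊆ S)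
    (hy : (y.coeff.support : Set D) ⊆ S) (hxN : ∀ d ∈ S, (x.coeff d).natAbs ≤ N)
    (hyN : ∀ d ∈ S, (y.coeff d).natAbs ≤ N)
    (h : rmap (Int.castRingHom (ZMod (2 * N + 1))) π x =
      rmap (Int.castRingHom (ZMod (2 * N + 1))) π y) : x = y := by
  ext d
  by_cases hd : d ∈ S
  · have h1 : (rmap (Int.castRingHom (ZMod (2 * N + 1))) π x).coeff (π d) =
        (rmap (Int.castRingHom (ZMod (2 * N + 1))) π y).coeff (π d) := by rw [h]
    rw [coeff_rmap _ π x S hx hS hd, coeff_rmap _ π y S hy hS hd] at h1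
    exact int_eq (hxN d hd) (hyN d hd) h1
  · have h1 : x.coeff d = 0 := by
      by_contra h0
      exact hd (hx (Finset.mem_coe.2 (Finsupp.mem_support_iff.2 h0)))
    have h2 : y.coeff d = 0 := by
      by_contra h0
      exact hd (hy (Finset.mem_coe.2 (Finsupp.mem_support_iff.2 h0)))
    rw [h1, h2]

theorem t_HRJ : S_HRJ := by
  classical
  intro D _ hD T
  set TD : Finset D := T.biUnion fun x =>
    x.U.coeff.support ∪ (x.V.coeff.support ∪ (x.W.coeff.support ∪ {x.h})) with hTD
  obtain ⟨Q, _, _, π, hπ⟩ := hD TD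
  set g : Hall ℤ D → D → ℕ := fun x d =>
    (x.U.coeff d).natAbs + ((x.V.coeff d).natAbs + (x.W.coeff d).natAbs) with hg
  set N : ℕ := ∑ x ∈ T, ∑ d ∈ TD, g x d with hN
  have hgN : ∀ x ∈ T, ∀ d ∈ TD, g x d ≤ N := by
    intro x hx d hd
    have h1 := Finset.single_le_sum (f := fun d => g x d) (fun i _ => Nat.zero_le _) hd
    have h2 := Finset.single_le_sum (f := fun x => ∑ d ∈ TD, g x d) (fun i _ => Nat.zero_le _) hx
    exact h1.trans h2
  have hsub : ∀ x ∈ T, (x.U.coeff.support : Set D) ⊆ TD ∧ (x.V.coeff.support : Set D) ⊆ TD ∧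
      (x.W.coeff.support : Set D) ⊆ TD ∧ x.h ∈ (TD : Set D) := by
    intro x hx
    refine ⟨fun d hd => ?_, fun d hd => ?_, fun d hd => ?_, ?_⟩ <;>
    · rw [Finset.mem_coe] at *
      rw [hTD, Finset.mem_biUnion]
      exact ⟨x, hx, by simp only [Finset.mem_union, Finset.mem_singleton]; tauto⟩
  refine ⟨2 * N + 1, Q, _, inferInstance, π, by omega, ?_⟩
  intro x hx y hy hxy
  rw [Finset.mem_coe] at hx hy
  obtain ⟨x1, x2, x3, x4⟩ := hsub x hx
  obtain ⟨y1, y2, y3, y4⟩ := hsub y hy
  have gx := hgN x hx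
  have gy := hgN y hy
  ext1
  · refine rmap_inj π (TD : Set D) hπ _ _ x1 y1 (fun d hd => ?_) (fun d hd => ?_)
      (congrArg Hall.U hxy)
    · have := gx d hd
      simp only [hg] at this
      omega
    · have := gy d hd
      simp only [hg] at this
      omega
  · refine rmap_inj π (TD : Set D) hπ _ _ x2 y2 (fun d hd => ?_) (fun d hd => ?_)
      (congrArg Hall.V hxy)
    · have := gx d hd
      simp only [hg] at this
      omega
    · have := gy d hd
      simp only [hg] at this
      omega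
  · refine rmap_inj π (TD : Set D) hπ _ _ x3 y3 (fun d hd => ?_) (fun d hd => ?_)
      (congrArg Hall.W hxy)
    · have := gx d hd
      simp only [hg] at this
      omega
    · have := gy d hd
      simp only [hg] at this
      omega
  · exact hπ x4 y4 (congrArg Hall.h hxy)

end Pool.Agent.N901.CE
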